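import Mathlib

set_option autoImplicit false

namespace Pool.TH855.Conv

/-- Ping-pong configuration in a group. -/
structure Config (G : Type*) [Group G] where
  /-- the element `a` -/
  a : G
  /-- the elements `x i` -/
  x : ℕ → G
  /-- the sets `S i` -/
  S : ℕ → Set G
  hS : ∀ g i i', g ∈ S i → g ∈ S i' → i = i'
  hD : ∀ g (s s' : ℕ × ℕ), (a ^ s.1 * x s.2)⁻¹ * g ∉ S s.2 → (a ^ s'.1 * x s'.2)⁻¹ * g ∉ S s'.2 →
    s = s'
  hx : ∀ (s s' : ℕ × ℕ), a ^ s.1 * x s.2 = a ^ s'.1 * x s'.2 → s = s'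

lemma Config.hx' {G : Type*} [Group G] (c : Config G) (i m i' m' : ℕ)
    (h : (c.x i)⁻¹ * c.a ^ m = (c.x i')⁻¹ * c.a ^ m') : i = i' ∧ m = m' := by
  have h1 : c.a ^ m' * c.x i = c.a ^ m * c.x i' := by
    have h2 : c.x i = c.a ^ m * (c.a ^ m')⁻¹ * c.x i' := by
      have h3 := congrArg (·⁻¹) h
      simp only [mul_inv_rev, inv_inv] at h3
      have h4 : c.x i = c.a ^ m * ((c.a ^ m)⁻¹ * c.x i) := by group
      rw [h4, h3]
      group
    rw [h2]
    have h5 : c.a ^ m' * (c.a ^ m * (c.a ^ m')⁻¹ * c.x i') =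
      (c.a ^ m' * c.a ^ m) * (c.a ^ m')⁻¹ * c.x i' := by group
    rw [h5, ← pow_add, add_comm, pow_add]
    group
  have h2 := c.hx (m', i) (m, i') h1
  simp only [Prod.mk.injEq] at h2
  exact ⟨h2.2, h2.1.symm⟩

lemma Config.pow_inj {G : Type*} [Group G] (c : Config G) (m m' : ℕ)
    (h : c.a ^ m = c.a ^ m') : m = m' := (c.hx' 0 m 0 m' (by rw [h])).2

namespace PP

abbrev F2 := FreeGroup (Fin 2)

/-- words starting with a given letter -/
abbrev W (i : Fin 2) (s : Bool) : Set F2 := FreeGroup.startsWith (i, s)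

lemma disj {i i' : Fin 2} {s s' : Bool} (h : (i, s) ≠ (i', s')) {g : F2} (h1 : g ∈ W i s)
    (h2 : g ∈ W i' s') : False :=
  Set.disjoint_left.1 (FreeGroup.startsWith.disjoint_iff_ne.2 h) h1 h2

lemma of_mul {i : Fin 2} {g : F2} (h : g ∉ W i false) : FreeGroup.of i * g ∈ W i true :=
  FreeGroup.startsWith_mk_mul (w := (i, true)) g h

lemma pow_mul {i : Fin 2} {g : F2} (h : g ∉ W i false) (k : ℕ) :
    FreeGroup.of i ^ (k + 1) * g ∈ W i true := by
  induction k with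
  | zero => simpa using of_mul h
  | succ k ih =>
    rw [pow_succ' _ (k + 1), mul_assoc]
    exact of_mul fun hc => disj (by simp) hc ih

lemma pow_mul_of_ne {i i' : Fin 2} (hi : i' ≠ i) {s : Bool} {g : F2} (h : g ∈ W i' s) (k : ℕ) :
    FreeGroup.of i ^ (k + 1) * g ∈ W i true :=
  pow_mul (fun hc => disj (by simp [hi]) h hc) k

/-- `x i = b^{i+1} a b^{i+1}` -/
def x (i : ℕ) : F2 := FreeGroup.of 1 ^ (i + 1) * (FreeGroup.of 0 * FreeGroup.of 1 ^ (i + 1))

/-- `S i = b^{-(i+1)} A_-` -/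
def S (i : ℕ) : Set F2 := {w | FreeGroup.of 1 ^ (i + 1) * w ∈ W 0 false}

lemma S_disj {w : F2} {i i' : ℕ} (h : w ∈ S i) (h' : w ∈ S i') : i = i' := by
  by_contra hne
  wlog hlt : i < i' generalizing i i'
  · exact this h' h (Ne.symm hne) (by omega)
  obtain ⟨k, rfl⟩ : ∃ k, i' = i + (k + 1) := ⟨i' - i - 1, by omega⟩
  have h1 : FreeGroup.of 1 ^ (i + (k + 1) + 1) * w =
      FreeGroup.of 1 ^ (k + 1) * (FreeGroup.of 1 ^ (i + 1) * w) := by
    rw [← mul_assoc, ← pow_add]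
    congr 2
    omega
  simp only [S, Set.mem_ofPred_eq] at h h'
  rw [h1] at h'
  exact disj (by simp) h' (pow_mul_of_ne (i := 1) (i' := 0) (by simp) h k)

/-- normal form: `x i * w = b^{i+1} v` with `v ∈ A_+` -/
lemma x_mul {w : F2} {i : ℕ} (h : w ∉ S i) :
    ∃ v ∈ W 0 true, x i * w = FreeGroup.of 1 ^ (i + 1) * v :=
  ⟨FreeGroup.of 0 * (FreeGroup.of 1 ^ (i + 1) * w), of_mul h, by simp [x, mul_assoc]⟩

lemma b_inj {v v' : F2} {i i' : ℕ} (hv : v ∈ W 0 true) (hv' : v' ∈ W 0 true)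
    (h : FreeGroup.of 1 ^ (i + 1) * v = FreeGroup.of 1 ^ (i' + 1) * v') : i = i' := by
  by_contra hne
  wlog hlt : i < i' generalizing i i' v v'
  · exact this hv' hv h.symm (Ne.symm hne) (by omega)
  obtain ⟨k, rfl⟩ : ∃ k, i' = i + (k + 1) := ⟨i' - i - 1, by omega⟩
  have h1 : FreeGroup.of 1 ^ (i + (k + 1) + 1) * v' =
      FreeGroup.of 1 ^ (i + 1) * (FreeGroup.of 1 ^ (k + 1) * v') := by
    rw [← mul_assoc, ← pow_add]
    congr 2
    omega
  rw [h1] at h
  have h2 : v = FreeGroup.of 1 ^ (k + 1) * v' := mul_left_cancel h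
  exact disj (by simp) (h2 ▸ hv) (pow_mul_of_ne (i := 1) (i' := 0) (by simp) hv' k)

lemma a_inj {v v' : F2} {j j' : ℕ} (hv : v ∈ W 1 true) (hv' : v' ∈ W 1 true)
    (h : FreeGroup.of 0 ^ j * v = FreeGroup.of 0 ^ j' * v') : j = j' ∧ v = v' := by
  have key : j = j' := by
    by_contra hne
    wlog hlt : j < j' generalizing j j' v v'
    · exact this hv' hv h.symm (Ne.symm hne) (by omega)
    obtain ⟨k, rfl⟩ : ∃ k, j' = j + (k + 1) := ⟨j' - j - 1, by omega⟩
    rw [pow_add, mul_assoc] at h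
    have h2 : v = FreeGroup.of 0 ^ (k + 1) * v' := mul_left_cancel h
    exact disj (by simp) (h2 ▸ hv) (pow_mul_of_ne (i := 0) (i' := 1) (by simp) hv' k)
  subst key
  exact ⟨rfl, mul_left_cancel h⟩

lemma t_disj {w : F2} {s s' : ℕ × ℕ}
    (h : (FreeGroup.of 0 ^ s.1 * x s.2)⁻¹ * w ∉ S s.2)
    (h' : (FreeGroup.of 0 ^ s'.1 * x s'.2)⁻¹ * w ∉ S s'.2) : s = s' := by
  obtain ⟨v, hv, e⟩ := x_mul h
  obtain ⟨v', hv', e'⟩ := x_mul h'
  have h1 : w = FreeGroup.of 0 ^ s.1 * (x s.2 * ((FreeGroup.of 0 ^ s.1 * x s.2)⁻¹ * w)) := by group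
  have h2 : w = FreeGroup.of 0 ^ s'.1 * (x s'.2 * ((FreeGroup.of 0 ^ s'.1 * x s'.2)⁻¹ * w)) := by
    group
  rw [e] at h1
  rw [e'] at h2
  rw [h1] at h2
  have hb : ∀ (i : ℕ) (v : F2), v ∈ W 0 true → FreeGroup.of 1 ^ (i + 1) * v ∈ W 1 true :=
    fun i v hv => pow_mul_of_ne (i := 1) (i' := 0) (by simp) hv i
  obtain ⟨e1, e2⟩ := a_inj (hb _ _ hv) (hb _ _ hv') h2
  exact Prod.ext e1 (b_inj hv hv' e2)

lemma one_notMem_S (i : ℕ) : (1 : F2) ∉ S i := by
  intro h
  have h1 : (1 : F2) ∉ W 1 false := fun hc => FreeGroup.startsWith.ne_one _ hc rfl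
  exact disj (by simp) h (pow_mul h1 i)

lemma t_inj {s s' : ℕ × ℕ}
    (h : FreeGroup.of 0 ^ s.1 * x s.2 = FreeGroup.of 0 ^ s'.1 * x s'.2) : s = s' := by
  apply t_disj (w := FreeGroup.of 0 ^ s.1 * x s.2)
  · rw [inv_mul_cancel]; exact one_notMem_S _
  · rw [h, inv_mul_cancel]; exact one_notMem_S _

end PP

/-- equivariant map to a subgroup -/
lemma exists_equivariant {G H : Type*} [Group G] [Group H] (φ : H →* G)
    (hφ : Function.Injective φ) :
    ∃ w : G → H, ∀ (v : H) (g : G), w (φ v * g) = v * w g := by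
  classical
  -- choose representatives of right cosets
  have h1 : ∀ g : G, ∃ v : H, g = φ v *
      Quotient.out (Quotient.mk (QuotientGroup.rightRel φ.range) g) := by
    intro g
    have h2 : (QuotientGroup.rightRel φ.range)
        (Quotient.out (Quotient.mk (QuotientGroup.rightRel φ.range) g)) g := Quotient.mk_out g
    rw [QuotientGroup.rightRel_apply] at h2
    obtain ⟨v, hv⟩ := h2
    exact ⟨v, by rw [hv]; group⟩
  choose w hw using h1
  refine ⟨w, fun v g => ?_⟩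
  have h3 : Quotient.mk (QuotientGroup.rightRel φ.range) (φ v * g) =
      Quotient.mk (QuotientGroup.rightRel φ.range) g := by
    apply Quotient.sound
    show (QuotientGroup.rightRel φ.range) _ _
    rw [QuotientGroup.rightRel_apply]
    exact ⟨v⁻¹, by rw [map_inv]; group⟩
  have h4 := hw (φ v * g)
  rw [h3] at h4
  have h5 := hw g
  have h6 : φ v * (φ (w g) * Quotient.out (Quotient.mk (QuotientGroup.rightRel φ.range) g)) =
      φ (w (φ v * g)) * Quotient.out (Quotient.mk (QuotientGroup.rightRel φ.range) g) := by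
    rw [← h5]; exact h4
  rw [← mul_assoc, ← map_mul] at h6
  exact (hφ (mul_right_cancel h6)).symm

/-- configuration in a group containing a free group -/
noncomputable def configOf {G : Type*} [Group G] (φ : FreeGroup (Fin 2) →* G)
    (hφ : Function.Injective φ) : Config G where
  a := φ (FreeGroup.of 0)
  x i := φ (PP.x i)
  S i := {g | (exists_equivariant φ hφ).choose g ∈ PP.S i}
  hS := fun _ _ _ h h' => PP.S_disj h h'
  hD := by
    intro g s s' h h'
    have hw := (exists_equivariant φ hφ).choose_spec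
    simp only [Set.mem_ofPred_eq, ← map_pow, ← map_mul, ← map_inv, hw] at h h'
    exact PP.t_disj h h'
  hx := by
    intro s s' h
    simp only [← map_pow, ← map_mul] at h
    exact PP.t_inj (hφ h)

end Pool.TH855.Conv
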