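import Pool.Agent.TH855.Conv.Glide
import Pool.Agent.TH855.Conv.Config

set_option autoImplicit false

namespace Pool.TH855.Conv

open scoped ENNReal
open Finset

variable {G : Type*} [Group G]

/-- the index set -/
def TT (L K : ℕ) : Finset (ℕ × ℕ) := range L ×ˢ range K

lemma card_TT (L K : ℕ) : (TT L K).card = L * K := by simp [TT]

lemma sum_TT (L K : ℕ) (f : ℕ × ℕ → ℝ≥0∞) :
    ∑ s ∈ TT L K, f s = ∑ j ∈ range L, ∑ i ∈ range K, f (j, i) := by
  rw [TT, sum_product]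

/-- the translates -/
def Config.t (c : Config G) (s : ℕ × ℕ) : G := c.a ^ s.1 * c.x s.2

open Classical in
/-- the function `∑ 1_{t s}` -/
noncomputable def Config.F (c : Config G) (L K : ℕ) (g : G) : ℝ≥0∞ :=
  ∑ s ∈ TT L K, if g = c.t s then 1 else 0

lemma Config.cvF (c : Config G) (L K : ℕ) (ξ : G → ℝ≥0∞) (g : G) :
    cv (c.F L K) ξ g = ∑ s ∈ TT L K, ξ ((c.t s)⁻¹ * g) := by
  classical
  unfold cv Config.F
  simp only [sum_mul]
  rw [Summable.tsum_finsetSum (fun _ _ => ENNReal.summable)]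
  apply sum_congr rfl
  intro s _
  rw [tsum_eq_single ((c.t s)⁻¹ * g)]
  · simp
  · intro k hk
    rw [if_neg, zero_mul]
    intro h
    apply hk
    rw [← h]
    group

lemma Config.cvF' (c : Config G) (L K : ℕ) (ξ : G → ℝ≥0∞) (g : G) :
    cv (fun g => c.F L K g⁻¹) ξ g = ∑ s ∈ TT L K, ξ (c.t s * g) := by
  classical
  unfold cv Config.F
  simp only [sum_mul]
  rw [Summable.tsum_finsetSum (fun _ _ => ENNReal.summable)]
  apply sum_congr rfl
  intro s _
  rw [tsum_eq_single (c.t s * g)]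
  · simp
  · intro k hk
    rw [if_neg, zero_mul]
    intro h
    apply hk
    rw [← h]
    group

/-- a sum with at most one nonzero term -/
lemma rpow_sum_le_of_unique {ι : Type*} (s : Finset ι) (f : ι → ℝ≥0∞) {p : ℝ} (hp : 0 < p)
    (h : ∀ i j, f i ≠ 0 → f j ≠ 0 → i = j) : (∑ i ∈ s, f i) ^ p ≤ ∑ i ∈ s, f i ^ p := by
  by_cases h0 : ∃ i ∈ s, f i ≠ 0
  · obtain ⟨i, hi, hfi⟩ := h0
    rw [sum_eq_single_of_mem i hi]
    · exact single_le_sum (f := fun i => f i ^ p) (fun _ _ => zero_le) hi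
    · intro j _ hji
      by_contra hj
      exact hji (h j i hj hfi)
  · push Not at h0
    rw [sum_eq_zero h0, ENNReal.zero_rpow_of_pos hp]
    exact zero_le

lemma NN_translate (p : ℝ) (ξ : G → ℝ≥0∞) (t : G) : NN p (fun g => ξ (t * g)) = NN p ξ := by
  unfold NN
  exact (Equiv.mulLeft t).tsum_eq (fun g => ξ g ^ p)

lemma NN_sum_translate (p : ℝ) (ξ : ℕ × ℕ → G → ℝ≥0∞) (T : Finset (ℕ × ℕ)) (t : ℕ × ℕ → G) :
    ∑' g, ∑ s ∈ T, ξ s (t s * g) ^ p = ∑ s ∈ T, NN p (ξ s) := by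
  rw [Summable.tsum_finsetSum (fun _ _ => ENNReal.summable)]
  apply sum_congr rfl
  intro s _
  exact NN_translate p (ξ s) (t s)

open Classical in
/-- restriction of a function -/
noncomputable def res (D : Set G) (ξ : G → ℝ≥0∞) (g : G) : ℝ≥0∞ := if g ∈ D then ξ g else 0

omit [Group G] in
lemma res_add (D : Set G) (ξ : G → ℝ≥0∞) (g : G) : ξ g = res Dᶜ ξ g + res D ξ g := by
  classical
  unfold res
  by_cases h : g ∈ D <;> simp [h]

omit [Group G] in
lemma res_le (D : Set G) (ξ : G → ℝ≥0∞) (g : G) : res D ξ g ≤ ξ g := by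
  classical
  unfold res
  split_ifs <;> simp

omit [Group G] in
lemma NN_mono {p : ℝ} (hp : 0 ≤ p) {ξ η : G → ℝ≥0∞} (h : ∀ g, ξ g ≤ η g) : NN p ξ ≤ NN p η :=
  ENNReal.tsum_le_tsum fun g => ENNReal.rpow_le_rpow (h g) hp

/-- disjoint restrictions -/
lemma sum_NN_res_le {p : ℝ} (hp : 0 < p) (T : Finset ℕ) (D : ℕ → Set G)
    (hD : ∀ g i i', g ∈ D i → g ∈ D i' → i = i') (ξ : G → ℝ≥0∞) :
    ∑ i ∈ T, NN p (res (D i) ξ) ≤ NN p ξ := by
  classical
  unfold NN
  rw [← Summable.tsum_finsetSum (fun _ _ => ENNReal.summable)]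
  apply ENNReal.tsum_le_tsum
  intro g
  by_cases h0 : ∃ i ∈ T, g ∈ D i
  · obtain ⟨i, hi, hgi⟩ := h0
    rw [sum_eq_single_of_mem i hi]
    · exact ENNReal.rpow_le_rpow (res_le _ _ _) hp.le
    · intro j _ hji
      have : g ∉ D j := fun hj => hji (hD g j i hj hgi)
      simp [res, this, ENNReal.zero_rpow_of_pos hp]
  · push Not at h0
    rw [sum_eq_zero]
    · exact zero_le
    · intro i hi
      simp [res, h0 i hi, ENNReal.zero_rpow_of_pos hp]

/-- upper bound for `F` -/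
lemma Config.upper (c : Config G) {p : ℝ} (hp : 1 < p) (L K : ℕ) (ξ : G → ℝ≥0∞) :
    NN p (cv (c.F L K) ξ) ≤
      2 ^ (p - 1) * ((L : ℝ≥0∞) * K + ((L : ℝ≥0∞) * K) ^ (p - 1) * L) * NN p ξ := by
  have hp0 : 0 < p := by linarith
  have h1 : ∀ g, cv (c.F L K) ξ g ^ p ≤ 2 ^ (p - 1) *
      ((∑ s ∈ TT L K, res (c.S s.2)ᶜ ξ ((c.t s)⁻¹ * g) ^ p) +
        ((L : ℝ≥0∞) * K) ^ (p - 1) * ∑ s ∈ TT L K, res (c.S s.2) ξ ((c.t s)⁻¹ * g) ^ p) := by
    intro g
    rw [c.cvF]
    have e : ∑ s ∈ TT L K, ξ ((c.t s)⁻¹ * g) =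
        ∑ s ∈ TT L K, res (c.S s.2)ᶜ ξ ((c.t s)⁻¹ * g) +
          ∑ s ∈ TT L K, res (c.S s.2) ξ ((c.t s)⁻¹ * g) := by
      rw [← sum_add_distrib]
      exact sum_congr rfl fun s _ => res_add _ _ _
    rw [e]
    refine (ENNReal.rpow_add_le_mul_rpow_add_rpow _ _ hp.le).trans ?_
    gcongr
    · apply rpow_sum_le_of_unique _ _ hp0
      intro s s' hs hs'
      apply c.hD g s s'
      · intro h
        apply hs
        simp only [res, Set.mem_compl_iff]
        rw [if_neg]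
        intro h'
        exact h' h
      · intro h
        apply hs'
        simp only [res, Set.mem_compl_iff]
        rw [if_neg]
        intro h'
        exact h' h
    · have h2 := ENNReal.rpow_sum_le_const_mul_sum_rpow (TT L K)
        (fun s => res (c.S s.2) ξ ((c.t s)⁻¹ * g)) hp.le
      rwa [card_TT, Nat.cast_mul] at h2
  refine (ENNReal.tsum_le_tsum h1).trans ?_
  rw [ENNReal.tsum_mul_left, ENNReal.tsum_add, ENNReal.tsum_mul_left, mul_assoc]
  gcongr
  rw [NN_sum_translate p (fun s => res (c.S s.2)ᶜ ξ) _ (fun s => (c.t s)⁻¹),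
    NN_sum_translate p (fun s => res (c.S s.2) ξ) _ (fun s => (c.t s)⁻¹), add_mul]
  apply add_le_add
  · calc ∑ s ∈ TT L K, NN p (res (c.S s.2)ᶜ ξ) ≤ ∑ s ∈ TT L K, NN p ξ :=
          sum_le_sum fun s _ => NN_mono hp0.le (res_le _ _)
      _ = (L : ℝ≥0∞) * K * NN p ξ := by
          rw [sum_const, card_TT, nsmul_eq_mul, Nat.cast_mul]
  · rw [mul_assoc]
    gcongr
    rw [sum_TT]
    calc ∑ j ∈ range L, ∑ i ∈ range K, NN p (res (c.S (j, i).2) ξ) ≤
          ∑ j ∈ range L, NN p ξ :=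
          sum_le_sum fun j _ => sum_NN_res_le hp0 _ _ c.hS ξ
      _ = (L : ℝ≥0∞) * NN p ξ := by simp

/-- upper bound for `F ∘ inv` -/
lemma Config.upper' (c : Config G) {p : ℝ} (hp : 1 < p) (L K : ℕ) (ξ : G → ℝ≥0∞) :
    NN p (cv (fun g => c.F L K g⁻¹) ξ) ≤
      2 ^ (p - 1) * (((L : ℝ≥0∞) * K) ^ (p - 1) + (L : ℝ≥0∞) ^ p * K) * NN p ξ := by
  classical
  have hp0 : 0 < p := by linarith
  -- indicator coefficients
  set α : ℕ → G → ℝ≥0∞ := fun i g => if g ∈ c.S i then 0 else 1 with hα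
  set β : ℕ → G → ℝ≥0∞ := fun i g => if g ∈ c.S i then 1 else 0 with hβ
  have h1 : ∀ g, cv (fun g => c.F L K g⁻¹) ξ g ^ p ≤ 2 ^ (p - 1) *
      (((L : ℝ≥0∞) * K) ^ (p - 1) * (∑ s ∈ TT L K, (α s.2 g * ξ (c.t s * g)) ^ p) +
        (L : ℝ≥0∞) ^ (p - 1) * ∑ s ∈ TT L K, ξ (c.t s * g) ^ p) := by
    intro g
    rw [c.cvF']
    have e : ∑ s ∈ TT L K, ξ (c.t s * g) =
        ∑ s ∈ TT L K, α s.2 g * ξ (c.t s * g) +
          ∑ s ∈ TT L K, β s.2 g * ξ (c.t s * g) := by
      rw [← sum_add_distrib]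
      refine sum_congr rfl fun s _ => ?_
      simp only [hα, hβ]
      split_ifs <;> simp
    rw [e]
    refine (ENNReal.rpow_add_le_mul_rpow_add_rpow _ _ hp.le).trans ?_
    gcongr
    · have h2 := ENNReal.rpow_sum_le_const_mul_sum_rpow (TT L K)
        (fun s => α s.2 g * ξ (c.t s * g)) hp.le
      rwa [card_TT, Nat.cast_mul] at h2
    · have e2 : ∑ s ∈ TT L K, β s.2 g * ξ (c.t s * g) =
          ∑ i ∈ range K, β i g * ∑ j ∈ range L, ξ (c.t (j, i) * g) := by
        rw [sum_TT, sum_comm]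
        refine sum_congr rfl fun i _ => ?_
        rw [mul_sum]
      have e3 : ∑ s ∈ TT L K, ξ (c.t s * g) ^ p =
          ∑ i ∈ range K, ∑ j ∈ range L, ξ (c.t (j, i) * g) ^ p := by
        rw [sum_TT, sum_comm]
      rw [e2, e3, mul_sum]
      refine (rpow_sum_le_of_unique _ _ hp0 ?_).trans ?_
      · intro i i' hi hi'
        apply c.hS g i i'
        · by_contra h
          exact hi (by simp [hβ, h])
        · by_contra h
          exact hi' (by simp [hβ, h])
      · apply sum_le_sum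
        intro i _
        calc (β i g * ∑ j ∈ range L, ξ (c.t (j, i) * g)) ^ p ≤
              (1 * ∑ j ∈ range L, ξ (c.t (j, i) * g)) ^ p := by
              gcongr
              simp only [hβ]
              split_ifs <;> simp
          _ = (∑ j ∈ range L, ξ (c.t (j, i) * g)) ^ p := by rw [one_mul]
          _ ≤ _ := by
              have h2 := ENNReal.rpow_sum_le_const_mul_sum_rpow (range L)
                (fun j => ξ (c.t (j, i) * g)) hp.le
              rwa [card_range] at h2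
  refine (ENNReal.tsum_le_tsum h1).trans ?_
  rw [ENNReal.tsum_mul_left, ENNReal.tsum_add, ENNReal.tsum_mul_left, ENNReal.tsum_mul_left,
    mul_assoc]
  gcongr
  rw [add_mul]
  apply add_le_add
  · gcongr
    -- each y is hit at most once
    have e : ∑' g, ∑ s ∈ TT L K, (α s.2 g * ξ (c.t s * g)) ^ p =
        ∑' y, ∑ s ∈ TT L K, (α s.2 ((c.t s)⁻¹ * y) * ξ y) ^ p := by
      rw [Summable.tsum_finsetSum (fun _ _ => ENNReal.summable),
        Summable.tsum_finsetSum (fun _ _ => ENNReal.summable)]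
      apply sum_congr rfl
      intro s _
      rw [← (Equiv.mulLeft (c.t s)).tsum_eq (fun y => (α s.2 ((c.t s)⁻¹ * y) * ξ y) ^ p)]
      congr 1
      funext g
      simp
    rw [e]
    apply ENNReal.tsum_le_tsum
    intro y
    by_cases h0 : ∃ s ∈ TT L K, (c.t s)⁻¹ * y ∉ c.S s.2
    · obtain ⟨s, hs, hys⟩ := h0
      rw [sum_eq_single_of_mem s hs]
      · simp [hα, hys]
      · intro s' _ hne
        have : (c.t s')⁻¹ * y ∈ c.S s'.2 := by
          by_contra h
          exact hne (c.hD y s' s h hys)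
        simp [hα, this, ENNReal.zero_rpow_of_pos hp0]
    · push Not at h0
      rw [sum_eq_zero]
      · exact zero_le
      · intro s hs
        simp [hα, h0 s hs, ENNReal.zero_rpow_of_pos hp0]
  · rw [NN_sum_translate p (fun _ => ξ) _ c.t, sum_const, card_TT, nsmul_eq_mul, Nat.cast_mul]
    apply le_of_eq
    have : (L : ℝ≥0∞) ^ p = (L : ℝ≥0∞) ^ (p - 1) * L := by
      rcases Nat.eq_zero_or_pos L with h | h
      · simp [h, ENNReal.zero_rpow_of_pos hp0]
      · conv_lhs => rw [show p = (p - 1) + 1 by ring]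
        rw [ENNReal.rpow_add _ _ (by exact_mod_cast h.ne') (ENNReal.natCast_ne_top L),
          ENNReal.rpow_one]
    rw [this]
    ring

end Pool.TH855.Conv
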