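import Mathlib

set_option autoImplicit false

namespace Pool.TH855.Conv

open scoped ENNReal
open Finset

/-- Jensen for the weights `2^{-(n+1)}` -/
lemma jensen_geom (z : ℕ → ℝ≥0∞) {p : ℝ} (hp : 1 ≤ p) :
    (∑' n, (2 : ℝ≥0∞)⁻¹ ^ (n + 1) * z n) ^ p ≤ ∑' n, (2 : ℝ≥0∞)⁻¹ ^ (n + 1) * z n ^ p := by
  have hp0 : 0 < p := by linarith
  rw [← ENNReal.le_rpow_inv_iff hp0, ENNReal.tsum_eq_iSup_nat]
  apply iSup_le
  intro N
  rw [ENNReal.le_rpow_inv_iff hp0]
  have hw : ∀ N : ℕ, ∑ n ∈ range N, (2 : ℝ≥0∞)⁻¹ ^ (n + 1) + (2 : ℝ≥0∞)⁻¹ ^ N = 1 := by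
    intro N
    induction N with
    | zero => simp
    | succ N ih =>
      rw [sum_range_succ, add_assoc]
      have : (2 : ℝ≥0∞)⁻¹ ^ (N + 1) + (2 : ℝ≥0∞)⁻¹ ^ (N + 1) = (2 : ℝ≥0∞)⁻¹ ^ N := by
        rw [pow_succ, ← mul_add, ENNReal.inv_two_add_inv_two, mul_one]
      rw [this, ih]
  have h := ENNReal.rpow_arith_mean_le_arith_mean_rpow (range (N + 1))
    (fun n => if n < N then (2 : ℝ≥0∞)⁻¹ ^ (n + 1) else (2 : ℝ≥0∞)⁻¹ ^ N)
    (fun n => if n < N then z n else 0) ?_ hp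
  · rw [sum_range_succ, sum_range_succ] at h
    simp only [lt_irrefl, if_false, mul_zero, add_zero, ENNReal.zero_rpow_of_pos hp0] at h
    have e1 : ∑ n ∈ range N, (if n < N then (2 : ℝ≥0∞)⁻¹ ^ (n + 1) else (2 : ℝ≥0∞)⁻¹ ^ N) *
        (if n < N then z n else 0) = ∑ n ∈ range N, (2 : ℝ≥0∞)⁻¹ ^ (n + 1) * z n := by
      apply sum_congr rfl
      intro n hn
      simp [mem_range.1 hn]
    have e2 : ∑ n ∈ range N, (if n < N then (2 : ℝ≥0∞)⁻¹ ^ (n + 1) else (2 : ℝ≥0∞)⁻¹ ^ N) *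
        (if n < N then z n else 0) ^ p = ∑ n ∈ range N, (2 : ℝ≥0∞)⁻¹ ^ (n + 1) * z n ^ p := by
      apply sum_congr rfl
      intro n hn
      simp [mem_range.1 hn]
    rw [e1, e2] at h
    exact h.trans (ENNReal.sum_le_tsum _)
  · rw [sum_range_succ]
    simp only [lt_irrefl, if_false]
    rw [← hw N]
    congr 1
    apply sum_congr rfl
    intro n hn
    simp [mem_range.1 hn]

variable {G : Type*} [Group G]

/-- convolution in `[0,∞]` -/
noncomputable def cv (F ξ : G → ℝ≥0∞) (g : G) : ℝ≥0∞ := ∑' k, F (g * k⁻¹) * ξ k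

/-- the `p`-th power of the `ℓ^p` norm -/
noncomputable def NN (p : ℝ) (ξ : G → ℝ≥0∞) : ℝ≥0∞ := ∑' g, ξ g ^ p

/-- `f` is a `p`-convolver -/
def IsConvolver (p : ℝ) (f : G → ℂ) : Prop :=
  ∃ C : ℝ, ∀ ξ : G →₀ ℂ,
    Summable (fun g : G => ‖∑ k ∈ ξ.support, f (g * k⁻¹) * ξ k‖ ^ p) ∧
    ∑' g : G, ‖∑ k ∈ ξ.support, f (g * k⁻¹) * ξ k‖ ^ p ≤ C * ∑ k ∈ ξ.support, ‖ξ k‖ ^ p

lemma cv_mono {F F' : G → ℝ≥0∞} (h : ∀ g, F g ≤ F' g) (ξ : G → ℝ≥0∞) (g : G) :
    cv F ξ g ≤ cv F' ξ g := ENNReal.tsum_le_tsum fun _ => mul_le_mul_left (h _) _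

open Classical in
/-- glueing countably many convolvers -/
lemma glide {p : ℝ} (hp : 1 < p)
    (h : ∀ R : ℕ, ∃ (F : G → ℝ≥0∞) (u : ℝ≥0∞) (A : Finset G), u ≠ 0 ∧ u ≠ ∞ ∧ A.Nonempty ∧
      (∀ ξ : G → ℝ≥0∞, NN p (cv F ξ) ≤ u * NN p ξ) ∧
      (R : ℝ≥0∞) * u * (A.card : ℝ≥0∞) ≤
        NN p (cv (fun g => F g⁻¹) (fun k => if k ∈ A then 1 else 0))) :
    ∃ f : G → ℂ, (∀ g, 0 ≤ (f g).re ∧ (f g).im = 0) ∧ IsConvolver p f ∧
      ¬ IsConvolver p (fun g => starRingEnd ℂ (f g⁻¹)) := by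
  classical
  have hp0 : 0 < p := by linarith
  have hp0' : p ≠ 0 := hp0.ne'
  -- choose the pieces
  have h' : ∀ n : ℕ, ∃ (F : G → ℝ≥0∞) (u : ℝ≥0∞) (A : Finset G), u ≠ 0 ∧ u ≠ ∞ ∧ A.Nonempty ∧
      (∀ ξ : G → ℝ≥0∞, NN p (cv F ξ) ≤ u * NN p ξ) ∧
      (((n : ℝ≥0∞) + 1) * ((2 : ℝ≥0∞) ^ (n + 1)) ^ p) * u * (A.card : ℝ≥0∞) ≤
        NN p (cv (fun g => F g⁻¹) (fun k => if k ∈ A then 1 else 0)) := by
    intro n
    have hfin : ((n : ℝ≥0∞) + 1) * ((2 : ℝ≥0∞) ^ (n + 1)) ^ p ≠ ∞ := by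
      apply ENNReal.mul_ne_top
      · exact ENNReal.add_ne_top.2 ⟨ENNReal.natCast_ne_top n, ENNReal.one_ne_top⟩
      · exact ENNReal.rpow_ne_top_of_nonneg hp0.le (ENNReal.pow_ne_top ENNReal.ofNat_ne_top)
    obtain ⟨R, hR⟩ := ENNReal.exists_nat_gt hfin
    obtain ⟨F, u, A, h1, h2, h3, h4, h5⟩ := h R
    refine ⟨F, u, A, h1, h2, h3, h4, le_trans ?_ h5⟩
    gcongr
  choose F u A hu0 hut hA hF hL using h'
  set w : ℕ → ℝ≥0∞ := fun n => (2 : ℝ≥0∞)⁻¹ ^ (n + 1) * (u n)⁻¹ ^ p⁻¹ with hw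
  set T : G → ℝ≥0∞ := fun g => ∑' n, w n * F n g with hT
  -- upper bound
  have hcvT : ∀ (ξ : G → ℝ≥0∞) (g : G), cv T ξ g =
      ∑' n, (2 : ℝ≥0∞)⁻¹ ^ (n + 1) * ((u n)⁻¹ ^ p⁻¹ * cv (F n) ξ g) := by
    intro ξ g
    simp only [cv, hT]
    calc ∑' k, (∑' n, w n * F n (g * k⁻¹)) * ξ k = ∑' k, ∑' n, w n * F n (g * k⁻¹) * ξ k := by
          simp only [ENNReal.tsum_mul_right]
      _ = ∑' n, ∑' k, w n * F n (g * k⁻¹) * ξ k := ENNReal.tsum_comm
      _ = _ := by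
          congr 1
          funext n
          simp only [hw]
          rw [← ENNReal.tsum_mul_left, ← ENNReal.tsum_mul_left]
          congr 1
          funext k
          ring
  have hupper : ∀ ξ : G → ℝ≥0∞, NN p (cv T ξ) ≤ NN p ξ := by
    intro ξ
    have h1 : NN p (cv T ξ) ≤ ∑' g, ∑' n, (2 : ℝ≥0∞)⁻¹ ^ (n + 1) *
        ((u n)⁻¹ * cv (F n) ξ g ^ p) := by
      apply ENNReal.tsum_le_tsum
      intro g
      rw [hcvT]
      refine (jensen_geom _ hp.le).trans (le_of_eq ?_)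
      congr 1
      funext n
      rw [ENNReal.mul_rpow_of_nonneg _ _ hp0.le, ENNReal.rpow_inv_rpow hp0']
    refine h1.trans ?_
    rw [ENNReal.tsum_comm]
    have h2 : ∀ n, ∑' g, (2 : ℝ≥0∞)⁻¹ ^ (n + 1) * ((u n)⁻¹ * cv (F n) ξ g ^ p) ≤
        (2 : ℝ≥0∞)⁻¹ ^ (n + 1) * NN p ξ := by
      intro n
      rw [ENNReal.tsum_mul_left, ENNReal.tsum_mul_left]
      gcongr
      calc (u n)⁻¹ * ∑' g, cv (F n) ξ g ^ p ≤ (u n)⁻¹ * (u n * NN p ξ) := by
            gcongr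
            exact hF n ξ
        _ = NN p ξ := by rw [← mul_assoc, ENNReal.inv_mul_cancel (hu0 n) (hut n), one_mul]
    refine (ENNReal.tsum_le_tsum h2).trans ?_
    rw [ENNReal.tsum_mul_right]
    have h3 : ∑' n : ℕ, (2 : ℝ≥0∞)⁻¹ ^ (n + 1) = 1 := by
      simp only [pow_succ]
      rw [ENNReal.tsum_mul_right, ENNReal.tsum_geometric, ENNReal.one_sub_inv_two, inv_inv]
      exact ENNReal.mul_inv_cancel two_ne_zero ENNReal.ofNat_ne_top
    rw [h3, one_mul]
  -- finiteness of T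
  have hTfin : ∀ g, T g ≠ ∞ := by
    intro g hg
    have h1 := hupper (fun k => if k = 1 then 1 else 0)
    have h2 : NN p (fun k : G => if k = 1 then (1 : ℝ≥0∞) else 0) = 1 := by
      unfold NN
      rw [tsum_eq_single 1]
      · simp
      · intro k hk
        simp [hk, ENNReal.zero_rpow_of_pos hp0]
    rw [h2] at h1
    have h3 : cv T (fun k => if k = 1 then 1 else 0) g = T g := by
      unfold cv
      rw [tsum_eq_single 1]
      · simp
      · intro k hk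
        simp [hk]
    have h4 : (cv T (fun k => if k = 1 then 1 else 0) g) ^ p ≤ 1 :=
      (ENNReal.le_tsum g).trans h1
    rw [h3, hg, ENNReal.top_rpow_of_pos hp0] at h4
    exact absurd h4 (by simp)
  refine ⟨fun g => ((T g).toReal : ℂ), fun g =>
    ⟨(ENNReal.toReal_nonneg : 0 ≤ (T g).toReal), Complex.ofReal_im _⟩, ?_, ?_⟩
  · refine ⟨1, fun ξ => ?_⟩
    set r : G → ℝ := fun g => ‖∑ k ∈ ξ.support, ((T (g * k⁻¹)).toReal : ℂ) * ξ k‖ ^ p with hr
    have hr0 : ∀ g, 0 ≤ r g := fun g => by positivity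
    have hbd : ∀ g, ENNReal.ofReal (r g) ≤ cv T (fun k => ‖ξ k‖ₑ) g ^ p := by
      intro g
      simp only [hr]
      rw [← ENNReal.ofReal_rpow_of_nonneg (norm_nonneg _) hp0.le]
      gcongr
      refine (ENNReal.ofReal_le_ofReal (norm_sum_le _ _)).trans ?_
      rw [ENNReal.ofReal_sum_of_nonneg (fun _ _ => norm_nonneg _)]
      refine le_trans (le_of_eq ?_) (ENNReal.sum_le_tsum ξ.support)
      apply sum_congr rfl
      intro k _
      rw [norm_mul, ENNReal.ofReal_mul (norm_nonneg _), Complex.norm_real, Real.norm_eq_abs,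
        abs_of_nonneg ENNReal.toReal_nonneg, ENNReal.ofReal_toReal (hTfin _), ofReal_norm]
    have hNξ : NN p (fun k => ‖ξ k‖ₑ) = ENNReal.ofReal (∑ k ∈ ξ.support, ‖ξ k‖ ^ p) := by
      unfold NN
      rw [tsum_eq_sum (s := ξ.support)]
      · rw [ENNReal.ofReal_sum_of_nonneg (fun _ _ => by positivity)]
        apply sum_congr rfl
        intro k _
        show ‖ξ k‖ₑ ^ p = _
        rw [← ofReal_norm, ENNReal.ofReal_rpow_of_nonneg (norm_nonneg _) hp0.le]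
      · intro k hk
        show ‖ξ k‖ₑ ^ p = _
        rw [Finsupp.notMem_support_iff.1 hk]
        simp [ENNReal.zero_rpow_of_pos hp0]
    have htot : ∑' g, ENNReal.ofReal (r g) ≤ ENNReal.ofReal (∑ k ∈ ξ.support, ‖ξ k‖ ^ p) := by
      rw [← hNξ]
      exact (ENNReal.tsum_le_tsum hbd).trans (hupper _)
    have hsum : Summable r := by
      have h1 : ∑' g, ENNReal.ofReal (r g) ≠ ∞ := ne_top_of_le_ne_top ENNReal.ofReal_ne_top htot
      have h2 := ENNReal.summable_toReal h1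
      refine h2.congr fun g => ?_
      rw [ENNReal.toReal_ofReal (hr0 g)]
    refine ⟨hsum, ?_⟩
    rw [one_mul]
    have h1 := ENNReal.ofReal_tsum_of_nonneg hr0 hsum
    rw [← h1] at htot
    exact (ENNReal.ofReal_le_ofReal_iff (by positivity)).1 htot
  · rintro ⟨C, hC⟩
    -- test vectors
    obtain ⟨n, hn⟩ := exists_nat_gt C
    set ξ : G →₀ ℂ := Finsupp.indicator (A n) (fun _ _ => 1) with hξ
    have hξv : ∀ k, ξ k = if k ∈ A n then 1 else 0 := by
      intro k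
      rw [hξ, Finsupp.indicator_apply]
      split_ifs <;> rfl
    have hsupp : ξ.support = A n := by
      ext k
      rw [Finsupp.mem_support_iff, hξv]
      simp
    obtain ⟨hs, hle⟩ := hC ξ
    have hR : ∑ k ∈ ξ.support, ‖ξ k‖ ^ p = (A n).card := by
      rw [hsupp]
      rw [sum_congr rfl (g := fun _ => (1 : ℝ))]
      · simp
      · intro k hk
        rw [hξv]
        simp [hk]
    rw [hR] at hle
    set r : G → ℝ := fun g => ‖∑ k ∈ ξ.support,
      starRingEnd ℂ (((T ((g * k⁻¹)⁻¹)).toReal : ℂ)) * ξ k‖ ^ p with hr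
    have hr0 : ∀ g, 0 ≤ r g := fun g => by positivity
    have hre : ∀ g, ENNReal.ofReal (r g) =
        cv (fun g => T g⁻¹) (fun k => if k ∈ A n then 1 else 0) g ^ p := by
      intro g
      simp only [hr]
      rw [← ENNReal.ofReal_rpow_of_nonneg (norm_nonneg _) hp0.le]
      congr 1
      have e1 : ∑ k ∈ ξ.support, starRingEnd ℂ (((T ((g * k⁻¹)⁻¹)).toReal : ℂ)) * ξ k =
          ((∑ k ∈ A n, (T ((g * k⁻¹)⁻¹)).toReal : ℝ) : ℂ) := by
        rw [hsupp]
        push_cast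
        apply sum_congr rfl
        intro k hk
        rw [hξv, Complex.conj_ofReal]
        simp [hk]
      rw [e1, Complex.norm_real, Real.norm_eq_abs,
        abs_of_nonneg (sum_nonneg fun _ _ => ENNReal.toReal_nonneg),
        ENNReal.ofReal_sum_of_nonneg (fun _ _ => ENNReal.toReal_nonneg)]
      unfold cv
      rw [tsum_eq_sum (s := A n)]
      · apply sum_congr rfl
        intro k hk
        rw [ENNReal.ofReal_toReal (hTfin _)]
        simp [hk]
      · intro k hk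
        simp [hk]
    have h1 := ENNReal.ofReal_tsum_of_nonneg hr0 hs
    have h2 : NN p (cv (fun g => T g⁻¹) (fun k => if k ∈ A n then 1 else 0)) ≤
        ENNReal.ofReal (C * (A n).card) := by
      calc NN p (cv (fun g => T g⁻¹) (fun k => if k ∈ A n then 1 else 0)) =
            ∑' g, ENNReal.ofReal (r g) := by
            unfold NN
            congr 1
            funext g
            rw [hre]
        _ = ENNReal.ofReal (∑' g, r g) := h1.symm
        _ ≤ _ := ENNReal.ofReal_le_ofReal hle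
    -- lower bound
    have h3 : w n ^ p * NN p (cv (fun g => F n g⁻¹) (fun k => if k ∈ A n then 1 else 0)) ≤
        NN p (cv (fun g => T g⁻¹) (fun k => if k ∈ A n then 1 else 0)) := by
      unfold NN
      rw [← ENNReal.tsum_mul_left]
      apply ENNReal.tsum_le_tsum
      intro g
      rw [← ENNReal.mul_rpow_of_nonneg _ _ hp0.le]
      gcongr
      unfold cv
      rw [← ENNReal.tsum_mul_left]
      apply ENNReal.tsum_le_tsum
      intro k
      rw [← mul_assoc]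
      gcongr
      simp only [hT]
      exact ENNReal.le_tsum (f := fun m => w m * F m (g * k⁻¹)⁻¹) n
    have hwp : w n ^ p = ((2 : ℝ≥0∞)⁻¹ ^ (n + 1)) ^ p * (u n)⁻¹ := by
      simp only [hw]
      rw [ENNReal.mul_rpow_of_nonneg _ _ hp0.le, ENNReal.rpow_inv_rpow hp0']
    have h4 : ((n : ℝ≥0∞) + 1) * (A n).card ≤ ENNReal.ofReal (C * (A n).card) := by
      refine le_trans ?_ (h3.trans h2)
      calc ((n : ℝ≥0∞) + 1) * (A n).card = w n ^ p *
            ((((n : ℝ≥0∞) + 1) * ((2 : ℝ≥0∞) ^ (n + 1)) ^ p) * u n * ((A n).card : ℝ≥0∞)) := by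
            rw [hwp]
            have e1 : ((2 : ℝ≥0∞)⁻¹ ^ (n + 1)) ^ p * ((2 : ℝ≥0∞) ^ (n + 1)) ^ p = 1 := by
              rw [← ENNReal.mul_rpow_of_nonneg _ _ hp0.le, ← mul_pow,
                ENNReal.inv_mul_cancel two_ne_zero ENNReal.ofNat_ne_top, one_pow, ENNReal.one_rpow]
            have e2 : (u n)⁻¹ * u n = 1 := ENNReal.inv_mul_cancel (hu0 n) (hut n)
            calc ((n : ℝ≥0∞) + 1) * (A n).card =
                  ((n : ℝ≥0∞) + 1) * (A n).card * 1 * 1 := by ring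
              _ = ((n : ℝ≥0∞) + 1) * (A n).card *
                  (((2 : ℝ≥0∞)⁻¹ ^ (n + 1)) ^ p * ((2 : ℝ≥0∞) ^ (n + 1)) ^ p) *
                  ((u n)⁻¹ * u n) := by rw [e1, e2]
              _ = _ := by ring
        _ ≤ _ := by
            gcongr
            exact hL n
    have hcard : 0 < ((A n).card : ℝ) := by exact_mod_cast (hA n).card_pos
    have h5 : ((n : ℝ≥0∞) + 1) * (A n).card = ENNReal.ofReal ((n + 1) * (A n).card) := by
      rw [ENNReal.ofReal_mul (by positivity), ENNReal.ofReal_add (by positivity) zero_le_one,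
        ENNReal.ofReal_natCast, ENNReal.ofReal_one, ENNReal.ofReal_natCast]
    rw [h5] at h4
    have h6 : (((n : ℝ) + 1) * (A n).card) ≤ C * (A n).card := by
      by_contra hcon
      push Not at hcon
      have h7 : 0 < ((n : ℝ) + 1) * (A n).card := by positivity
      have := (ENNReal.ofReal_lt_ofReal_iff h7).2 hcon
      exact absurd h4 (not_le.2 this)
    have h7 := le_of_mul_le_mul_right h6 hcard
    linarith

end Pool.TH855.Conv
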