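import Pool.Agent.TH855.Conv.Bounds

set_option autoImplicit false

namespace Pool.TH855.Conv

open scoped ENNReal
open Finset

variable {G : Type*} [Group G]

open Classical in
/-- the set `{a^m}` -/
noncomputable def Config.A1 (c : Config G) (L : ℕ) : Finset G :=
  (range (2 * L)).image fun m => c.a ^ m

open Classical in
/-- the set `{x_i⁻¹ a^m}` -/
noncomputable def Config.A2 (c : Config G) (M K : ℕ) : Finset G :=
  (range M ×ˢ range K).image fun s => (c.x s.2)⁻¹ * c.a ^ s.1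

lemma Config.card_A1 (c : Config G) (L : ℕ) : (c.A1 L).card = 2 * L := by
  classical
  unfold Config.A1
  rw [card_image_of_injective _ fun m m' h => c.pow_inj m m' h, card_range]

lemma Config.card_A2 (c : Config G) (M K : ℕ) : (c.A2 M K).card = M * K := by
  classical
  unfold Config.A2
  rw [card_image_of_injective, card_product, card_range, card_range]
  intro s s' h
  obtain ⟨h1, h2⟩ := c.hx' _ _ _ _ h
  exact Prod.ext h2 h1

open Classical in
lemma Config.lower' (c : Config G) {p : ℝ} (hp : 0 < p) (L K : ℕ) :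
    (K : ℝ≥0∞) * L * (L : ℝ≥0∞) ^ p ≤
      NN p (cv (fun g => c.F L K g⁻¹) (fun k => if k ∈ c.A1 L then 1 else 0)) := by
  have h1 : ∀ g ∈ c.A2 L K, (L : ℝ≥0∞) ^ p ≤
      cv (fun g => c.F L K g⁻¹) (fun k => if k ∈ c.A1 L then 1 else 0) g ^ p := by
    intro g hg
    unfold Config.A2 at hg
    obtain ⟨⟨m, i⟩, hs, rfl⟩ := mem_image.1 hg
    simp only [mem_product, mem_range] at hs
    apply ENNReal.rpow_le_rpow _ hp.le
    rw [c.cvF', sum_TT, sum_comm]
    calc (L : ℝ≥0∞) = ∑ j ∈ range L, 1 := by simp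
      _ ≤ ∑ j ∈ range L, (if c.t (j, i) * ((c.x i)⁻¹ * c.a ^ m) ∈ c.A1 L then 1 else 0) := by
          apply sum_le_sum
          intro j hj
          rw [if_pos]
          unfold Config.A1
          rw [mem_image]
          refine ⟨j + m, ?_, ?_⟩
          · rw [mem_range] at hj ⊢
            omega
          · unfold Config.t
            simp only
            rw [pow_add]
            group
      _ ≤ _ := single_le_sum
          (f := fun i' => ∑ j ∈ range L, (if c.t (j, i') * ((c.x i)⁻¹ * c.a ^ m) ∈ c.A1 L then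
            (1 : ℝ≥0∞) else 0)) (fun _ _ => zero_le) (mem_range.2 hs.2)
  calc (K : ℝ≥0∞) * L * (L : ℝ≥0∞) ^ p = ∑ g ∈ c.A2 L K, (L : ℝ≥0∞) ^ p := by
        rw [sum_const, c.card_A2, nsmul_eq_mul, Nat.cast_mul]
        ring
    _ ≤ ∑ g ∈ c.A2 L K, cv (fun g => c.F L K g⁻¹) (fun k => if k ∈ c.A1 L then 1 else 0) g ^ p :=
        sum_le_sum h1
    _ ≤ _ := ENNReal.sum_le_tsum _

open Classical in
lemma Config.lower (c : Config G) {p : ℝ} (hp : 0 < p) (L K : ℕ) :
    (L : ℝ≥0∞) * ((L : ℝ≥0∞) * K) ^ p ≤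
      NN p (cv (c.F L K) (fun k => if k ∈ c.A2 (2 * L) K then 1 else 0)) := by
  set B : Finset G := (Ico L (2 * L)).image fun m => c.a ^ m with hB
  have hcard : B.card = L := by
    rw [hB, card_image_of_injective _ fun m m' h => c.pow_inj m m' h, Nat.card_Ico]
    omega
  have h1 : ∀ g ∈ B, ((L : ℝ≥0∞) * K) ^ p ≤
      cv (c.F L K) (fun k => if k ∈ c.A2 (2 * L) K then 1 else 0) g ^ p := by
    intro g hg
    obtain ⟨m, hm, rfl⟩ := mem_image.1 hg
    rw [mem_Ico] at hm
    apply ENNReal.rpow_le_rpow _ hp.le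
    rw [c.cvF]
    calc (L : ℝ≥0∞) * K = ∑ s ∈ TT L K, 1 := by
          rw [sum_const, card_TT, nsmul_eq_mul, mul_one, Nat.cast_mul]
      _ ≤ _ := by
          apply sum_le_sum
          intro s hs
          rw [if_pos]
          simp only [TT, mem_product, mem_range] at hs
          unfold Config.A2
          rw [mem_image]
          refine ⟨(m - s.1, s.2), ?_, ?_⟩
          · simp only [mem_product, mem_range]
            omega
          · unfold Config.t
            simp only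
            have : c.a ^ m = c.a ^ s.1 * c.a ^ (m - s.1) := by
              rw [← pow_add]
              congr 1
              omega
            rw [this]
            group
  calc (L : ℝ≥0∞) * ((L : ℝ≥0∞) * K) ^ p = ∑ g ∈ B, ((L : ℝ≥0∞) * K) ^ p := by
        rw [sum_const, hcard, nsmul_eq_mul]
    _ ≤ ∑ g ∈ B, cv (c.F L K) (fun k => if k ∈ c.A2 (2 * L) K then 1 else 0) g ^ p :=
        sum_le_sum h1
    _ ≤ _ := ENNReal.sum_le_tsum _

lemma exists_nat_rpow {c : ℝ≥0∞} (hc : c ≠ ∞) {e : ℝ} (he : 0 < e) :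
    ∃ L : ℕ, 1 ≤ L ∧ c ≤ (L : ℝ≥0∞) ^ e := by
  obtain ⟨L, hL⟩ := ENNReal.exists_nat_gt
    (ENNReal.rpow_ne_top_of_nonneg (inv_nonneg.2 he.le) hc : c ^ e⁻¹ ≠ ∞)
  refine ⟨L, ?_, ?_⟩
  · by_contra h
    have : L = 0 := by omega
    rw [this] at hL
    simp at hL
  · rw [← ENNReal.rpow_inv_le_iff he]
    exact hL.le

lemma rpow_split {x : ℝ≥0∞} (h0 : x ≠ 0) (ht : x ≠ ∞) {p q r : ℝ} (h : p = q + r) :
    x ^ p = x ^ q * x ^ r := by rw [h, ENNReal.rpow_add _ _ h0 ht]

/-- the involution is unbounded on `p`-convolvers of groups with a configuration -/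
theorem Config.main (c : Config G) {p : ℝ} (hp : 1 < p) (hp2 : p ≠ 2) :
    ∃ f : G → ℂ, (∀ g, 0 ≤ (f g).re ∧ (f g).im = 0) ∧ IsConvolver p f ∧
      ¬ IsConvolver p (fun g => starRingEnd ℂ (f g⁻¹)) := by
  classical
  have hp0 : 0 < p := by linarith
  have h2p : (2 : ℝ≥0∞) ^ p = 2 ^ (p - 1) * 2 := by
    rw [rpow_split two_ne_zero ENNReal.ofNat_ne_top (show p = (p - 1) + 1 by ring),
      ENNReal.rpow_one]
  rcases lt_or_gt_of_ne hp2 with hlt | hgt
  · apply glide hp
    intro R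
    have hc : (2 : ℝ≥0∞) * R * 2 ^ p ≠ ∞ := ENNReal.mul_ne_top
      (ENNReal.mul_ne_top ENNReal.ofNat_ne_top (ENNReal.natCast_ne_top R))
      (ENNReal.rpow_ne_top_of_nonneg hp0.le ENNReal.ofNat_ne_top)
    obtain ⟨L, hL1, hL⟩ := exists_nat_rpow hc (show 0 < p - 1 by linarith)
    obtain ⟨K, hK1, hK⟩ := exists_nat_rpow hc (show 0 < 2 - p by linarith)
    have hl0 : (L : ℝ≥0∞) ≠ 0 := by exact_mod_cast (by omega : L ≠ 0)
    have hk0 : (K : ℝ≥0∞) ≠ 0 := by exact_mod_cast (by omega : K ≠ 0)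
    have hlt' : (L : ℝ≥0∞) ≠ ∞ := ENNReal.natCast_ne_top L
    have hkt' : (K : ℝ≥0∞) ≠ ∞ := ENNReal.natCast_ne_top K
    refine ⟨c.F L K, 2 ^ (p - 1) * ((L : ℝ≥0∞) * K + ((L : ℝ≥0∞) * K) ^ (p - 1) * L), c.A1 L,
      ?_, ?_, ?_, c.upper hp L K, le_trans ?_ (c.lower' hp0 L K)⟩
    · refine mul_ne_zero (by simp) (fun h => ?_)
      exact mul_ne_zero hl0 hk0 (add_eq_zero.1 h).1
    · apply ENNReal.mul_ne_top
      · exact ENNReal.rpow_ne_top_of_nonneg (by linarith) ENNReal.ofNat_ne_top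
      · exact ENNReal.add_ne_top.2 ⟨ENNReal.mul_ne_top hlt' hkt', ENNReal.mul_ne_top
          (ENNReal.rpow_ne_top_of_nonneg (by linarith) (ENNReal.mul_ne_top hlt' hkt')) hlt'⟩
    · rw [← card_pos, c.card_A1]; omega
    · rw [c.card_A1]
      push_cast
      rw [← ENNReal.mul_le_mul_iff_right (a := 2) two_ne_zero ENNReal.ofNat_ne_top]
      set l : ℝ≥0∞ := (L : ℝ≥0∞)
      set k : ℝ≥0∞ := (K : ℝ≥0∞)
      have e1 : (l * k) ^ (p - 1) = l ^ (p - 1) * k ^ (p - 1) :=
        ENNReal.mul_rpow_of_nonneg _ _ (by linarith)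
      have e2 : l ^ p = l ^ (p - 1) * l := by
        rw [rpow_split hl0 hlt' (show p = (p - 1) + 1 by ring), ENNReal.rpow_one]
      have e3 : k ^ (2 - p) * k ^ (p - 1) = k := by
        rw [← ENNReal.rpow_add _ _ hk0 hkt', show 2 - p + (p - 1) = 1 by ring, ENNReal.rpow_one]
      calc 2 * ((R : ℝ≥0∞) * (2 ^ (p - 1) * (l * k + (l * k) ^ (p - 1) * l)) * (2 * l)) =
            (2 * R * 2 ^ p) * (l * l * k) +
              (2 * R * 2 ^ p) * (l ^ (p - 1) * k ^ (p - 1) * l * l) := by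
            rw [h2p, e1]; ring
        _ ≤ l ^ (p - 1) * (l * l * k) + k ^ (2 - p) * (l ^ (p - 1) * k ^ (p - 1) * l * l) := by
            gcongr
        _ = l ^ (p - 1) * (l * l * k) +
              (k ^ (2 - p) * k ^ (p - 1)) * (l ^ (p - 1) * l * l) := by ring
        _ = 2 * (k * l * l ^ p) := by rw [e3, e2]; ring
  · have key : ∃ f : G → ℂ, (∀ g, 0 ≤ (f g).re ∧ (f g).im = 0) ∧ IsConvolver p f ∧
        ¬ IsConvolver p (fun g => starRingEnd ℂ (f g⁻¹)) := by
      apply glide hp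
      intro R
      have hc : (2 : ℝ≥0∞) * R * 2 ^ p ≠ ∞ := ENNReal.mul_ne_top
        (ENNReal.mul_ne_top ENNReal.ofNat_ne_top (ENNReal.natCast_ne_top R))
        (ENNReal.rpow_ne_top_of_nonneg hp0.le ENNReal.ofNat_ne_top)
      obtain ⟨L, hL1, hL⟩ := exists_nat_rpow hc (show (0 : ℝ) < 1 by norm_num)
      obtain ⟨K, hK1, hK⟩ := exists_nat_rpow hc (show 0 < p - 2 by linarith)
      rw [ENNReal.rpow_one] at hL
      have hl0 : (L : ℝ≥0∞) ≠ 0 := by exact_mod_cast (by omega : L ≠ 0)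
      have hk0 : (K : ℝ≥0∞) ≠ 0 := by exact_mod_cast (by omega : K ≠ 0)
      have hlt' : (L : ℝ≥0∞) ≠ ∞ := ENNReal.natCast_ne_top L
      have hkt' : (K : ℝ≥0∞) ≠ ∞ := ENNReal.natCast_ne_top K
      have hlow := c.lower hp0 L K
      refine ⟨fun g => c.F L K g⁻¹,
        2 ^ (p - 1) * (((L : ℝ≥0∞) * K) ^ (p - 1) + (L : ℝ≥0∞) ^ p * K), c.A2 (2 * L) K,
        ?_, ?_, ?_, c.upper' hp L K, ?_⟩
      · refine mul_ne_zero (by simp) (fun h => ?_)
        have h1 := (add_eq_zero.1 h).2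
        refine mul_ne_zero ?_ hk0 h1
        simp [ENNReal.rpow_eq_zero_iff, hl0]
      · apply ENNReal.mul_ne_top
        · exact ENNReal.rpow_ne_top_of_nonneg (by linarith) ENNReal.ofNat_ne_top
        · exact ENNReal.add_ne_top.2
            ⟨ENNReal.rpow_ne_top_of_nonneg (by linarith) (ENNReal.mul_ne_top hlt' hkt'),
              ENNReal.mul_ne_top (ENNReal.rpow_ne_top_of_nonneg hp0.le hlt') hkt'⟩
      · rw [← card_pos, c.card_A2]; positivity
      · simp only [inv_inv]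
        refine le_trans ?_ hlow
        rw [c.card_A2]
        push_cast
        rw [← ENNReal.mul_le_mul_iff_right (a := 2) two_ne_zero ENNReal.ofNat_ne_top]
        set l : ℝ≥0∞ := (L : ℝ≥0∞)
        set k : ℝ≥0∞ := (K : ℝ≥0∞)
        have e1 : (l * k) ^ p = (l * k) ^ (p - 1) * (l * k) := by
          rw [rpow_split (mul_ne_zero hl0 hk0) (ENNReal.mul_ne_top hlt' hkt')
            (show p = (p - 1) + 1 by ring), ENNReal.rpow_one]
        have e1' : (l * k) ^ p = l ^ p * k ^ p := ENNReal.mul_rpow_of_nonneg _ _ hp0.le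
        have e3 : k ^ (p - 2) * (k * k) = k ^ p := by
          rw [← pow_two, ← ENNReal.rpow_natCast, ← ENNReal.rpow_add _ _ hk0 hkt']
          congr 1
          push_cast
          ring
        calc 2 * ((R : ℝ≥0∞) * (2 ^ (p - 1) * ((l * k) ^ (p - 1) + l ^ p * k)) * (2 * l * k)) =
              (2 * R * 2 ^ p) * ((l * k) ^ (p - 1) * (l * k)) +
                (2 * R * 2 ^ p) * (l ^ p * (k * k) * l) := by
              rw [h2p]; ring
          _ ≤ l * ((l * k) ^ (p - 1) * (l * k)) + k ^ (p - 2) * (l ^ p * (k * k) * l) := by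
              gcongr
          _ = l * ((l * k) ^ (p - 1) * (l * k)) + (k ^ (p - 2) * (k * k)) * (l ^ p * l) := by ring
          _ = 2 * (l * (l * k) ^ p) := by rw [← e1, e3, e1']; ring
    exact key

end Pool.TH855.Conv
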